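import Pool.Agent.Q100.Sick

/-!
# Sick products of two infinite compact spaces are metrizable

The definitions are in `Pool/Agent/Q100/SickDefs.lean` (sick compact spaces) and
`Pool/Agent/Q100/BL.lean` (Banach lattices).
-/

set_option autoImplicit false

namespace Pool.Agent.Results.MP_1eaa31_an.SickProducts

open Q100.Sick TopologicalSpace

universe u v w

/-- The negated form of Q1: if `K` and `L` are infinite compact (Hausdorff) spaces and `K × L` is
sick, then `K`, `L` and `K × L` are metrizable. Moreover, if only `L` is assumed to be infinite,
then `K` is metrizable. -/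
theorem result :
    (∀ (K : Type u) [TopologicalSpace K] [CompactSpace K] [T2Space K]
      (L : Type v) [TopologicalSpace L] [CompactSpace L] [T2Space L] [Infinite L],
      SickSpace.{max u v, w} (K × L) → MetrizableSpace K) ∧
    (∀ (K : Type u) [TopologicalSpace K] [CompactSpace K] [T2Space K] [Infinite K]
      (L : Type v) [TopologicalSpace L] [CompactSpace L] [T2Space L] [Infinite L],
      SickSpace.{max u v, w} (K × L) →
      MetrizableSpace K ∧ MetrizableSpace L ∧ MetrizableSpace (K × L)) := by
  refine ⟨fun K _ _ _ L _ _ _ _ h => metrizable_left_of_sick h, ?_⟩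
  intro K _ _ _ _ L _ _ _ _ h
  have h1 : MetrizableSpace K := metrizable_left_of_sick h
  have h2 : MetrizableSpace L := metrizable_left_of_sick (h.homeo (Homeomorph.prodComm K L))
  exact ⟨h1, h2, inferInstance⟩

end Pool.Agent.Results.MP_1eaa31_an.SickProducts
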